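import Pool.Graph.R_seed8.R974.Span.Don

open Filter Topology Set TopologicalSpace
open scoped NNReal unitInterval

namespace Pool.Agent.H99.CS

open Pool.Agent.R974.Span

/-- A point of `[0, 1]` as a time. -/
def tm (x : I) : ℝ≥0 := ⟨x, x.2.1⟩

lemma tm_le (x : I) : tm x ≤ 1 := by
  rw [← NNReal.coe_le_coe]; exact x.2.2

@[simp] lemma coe_tm (x : I) : ((tm x : ℝ≥0) : ℝ) = x := rfl

lemma continuous_tm : Continuous tm := by
  unfold tm
  exact Continuous.subtype_mk continuous_subtype_val _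

/-- The coincidence set of a path: all families of times in `[0, 1]` at which the path takes the
same value. -/
def coin (ι : Type) (f : ℝ≥0 → ℝ) : Set (ι → I) :=
  {u | ∀ i j, f (tm (u i)) = f (tm (u j))}

/-- The rescaled coincidence set of the first `N` steps of an integer sequence. -/
def coinN (ι : Type) (N : ℕ) (z : ℕ → ℤ) : Set (ι → I) :=
  {u | ∃ k : ι → ℕ, (∀ i, k i ≤ N) ∧ (∀ i j, z (k i) = z (k j)) ∧ ∀ i, (u i : ℝ) = (k i : ℝ) / N}

variable {ι : Type} [Finite ι]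

lemma btw {N : ℕ} (hN : 0 < N) {r : ℝ} (hNr : (1 : ℝ) / N < r) (q : ℝ) (q1 q2 : ℝ≥0) (i : ℕ)
    (hq1 : |(q1:ℝ) - q| < r) (hq2 : |(q2:ℝ) - q| < r)
    (hi1 : min ⌊q1 * N⌋₊ ⌊q2 * N⌋₊ ≤ i) (hi2 : i ≤ max ⌊q1 * N⌋₊ ⌊q2 * N⌋₊) :
    |(i:ℝ) / N - q| < 2 * r := by
  have hNR : (0:ℝ) < N := by exact_mod_cast hN
  rw [abs_lt] at hq1 hq2
  have f1 := floor_le' q1 N hN
  have f2 := floor_le' q2 N hN
  have g1 := lt_floor' q1 N hN
  have g2 := lt_floor' q2 N hN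
  rw [abs_lt]
  constructor
  · rcases min_le_iff.mp hi1 with h | h
    · have : (((⌊q1 * N⌋₊ : ℕ) : ℝ) / N) ≤ (i:ℝ) / N := by
        apply div_le_div_of_nonneg_right _ hNR.le
        exact_mod_cast h
      linarith
    · have : (((⌊q2 * N⌋₊ : ℕ) : ℝ) / N) ≤ (i:ℝ) / N := by
        apply div_le_div_of_nonneg_right _ hNR.le
        exact_mod_cast h
      linarith
  · rcases le_max_iff.mp hi2 with h | h
    · have : (i:ℝ) / N ≤ (((⌊q1 * N⌋₊ : ℕ) : ℝ) / N) := by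
        apply div_le_div_of_nonneg_right _ hNR.le
        exact_mod_cast h
      linarith
    · have : (i:ℝ) / N ≤ (((⌊q2 * N⌋₊ : ℕ) : ℝ) / N) := by
        apply div_le_div_of_nonneg_right _ hNR.le
        exact_mod_cast h
      linarith

/-- if the path exceeds the common level near every time, the coincidence is stable -/
lemma level_up {f : ℝ≥0 → ℝ} (hf : Continuous f) {v : ℝ} {u : ι → I}
    (hu : ∀ i, f (tm (u i)) = v) {r : ℝ} (hr : 0 < r)
    (h : ∀ i, ∃ t : ℝ≥0, t ≤ 1 ∧ |(t:ℝ) - u i| < r ∧ v < f t) :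
    ∃ δ > 0, ∃ N0 : ℕ, ∀ N ≥ N0, 0 < N → ∀ a : ℝ, 0 < a → ∀ Z : ℕ → ℤ,
      (∀ k < N, |Z (k + 1) - Z k| ≤ 1) → (∀ k ≤ N, |a * Z k - f ((k : ℝ≥0) / N)| ≤ δ) →
      ∃ k : ι → ℕ, (∀ i, k i ≤ N) ∧ (∀ i j, Z (k i) = Z (k j)) ∧
        ∀ i, |(k i : ℝ) / N - u i| ≤ 2 * r := by
  rcases isEmpty_or_nonempty ι with hE | hE
  · exact ⟨1, one_pos, 0, fun N _ _ a _ Z _ _ => ⟨fun _ => 0, fun i => (hE.false i).elim,
      fun i => (hE.false i).elim, fun i => (hE.false i).elim⟩⟩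
  choose t ht1 htr htv using h
  obtain ⟨i0, hi0⟩ := Finite.exists_min (fun i => f (t i) - v)
  set c : ℝ := f (t i0) - v with hc
  have hc0 : 0 < c := sub_pos.2 (htv i0)
  have hcont : ∀ q : ℝ≥0, ∀ᶠ N : ℕ in atTop,
      |f (((⌊q * N⌋₊ : ℕ) : ℝ≥0) / N) - f q| < c / 8 := by
    intro q
    have h3 := (hf.tendsto q).comp (floor_tendsto q)
    exact (Metric.tendsto_nhds.mp h3) (c / 8) (by linarith)
  have hN1 : ∀ᶠ N : ℕ in atTop, (1:ℝ) / N < r := by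
    have h4 := tendsto_one_div_atTop_nhds_zero_nat (𝕜 := ℝ)
    exact h4.eventually (gt_mem_nhds hr)
  obtain ⟨N0, hN0⟩ := ((eventually_all.2 fun i => hcont (tm (u i))).and
    ((eventually_all.2 fun i => hcont (t i)).and hN1)).exists_forall_of_atTop
  refine ⟨c / 8, by linarith, N0, fun N hN hNpos a ha Z hZ hclose => ?_⟩
  obtain ⟨c1, c2, hNr⟩ := hN0 N hN
  have hp : ∀ i, a * (Z ⌊tm (u i) * N⌋₊ : ℝ) ≤ v + c / 4 := by
    intro i
    have d1 := hclose _ (floor_le_N (tm_le (u i)) N)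
    have e1 := c1 i
    rw [abs_le] at d1
    rw [abs_lt] at e1
    have := hu i
    linarith [d1.2, e1.2]
  have hq : ∀ i, v + 3 * c / 4 ≤ a * (Z ⌊t i * N⌋₊ : ℝ) := by
    intro i
    have d1 := hclose _ (floor_le_N (ht1 i) N)
    have e1 := c2 i
    rw [abs_le] at d1
    rw [abs_lt] at e1
    have := hi0 i
    linarith [d1.1, e1.1]
  obtain ⟨m, hm⟩ := Finite.exists_max (fun i => Z ⌊tm (u i) * N⌋₊)
  set ζ : ℤ := Z ⌊tm (u m) * N⌋₊ with hζ
  have hex : ∀ i, ∃ k, min ⌊tm (u i) * N⌋₊ ⌊t i * N⌋₊ ≤ k ∧ k ≤ max ⌊tm (u i) * N⌋₊ ⌊t i * N⌋₊ ∧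
      Z k = ζ := by
    intro i
    have hz1 : Z ⌊tm (u i) * N⌋₊ ≤ ζ := hm i
    have hz2 : ζ ≤ Z ⌊t i * N⌋₊ := by
      have h5 : a * (ζ : ℝ) ≤ a * (Z ⌊t i * N⌋₊ : ℝ) := by
        have := hp m
        have := hq i
        linarith
      have h6 := le_of_mul_le_mul_left h5 ha
      exact_mod_cast h6
    obtain ⟨k, h1, h2, h3⟩ := ivt (fun k => Z k - ζ) (a := ⌊tm (u i) * N⌋₊) (b := ⌊t i * N⌋₊)
      (fun j _ hj => by
        have := hZ j (lt_of_lt_of_le hj (max_le (floor_le_N (tm_le (u i)) N) (floor_le_N (ht1 i) N)))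
        simpa using this) (by omega) (by omega)
    exact ⟨k, h1, h2, by omega⟩
  choose k hk1 hk2 hk3 using hex
  refine ⟨k, fun i => (hk2 i).trans (max_le (floor_le_N (tm_le (u i)) N) (floor_le_N (ht1 i) N)),
    fun i j => (hk3 i).trans (hk3 j).symm, fun i => ?_⟩
  exact (btw hNpos hNr (u i) (tm (u i)) (t i) (k i) (by simpa using hr) (htr i)
    (hk1 i) (hk2 i)).le

omit [Finite ι] in
/-- for a nondegenerate path, one of the two sides is available at all the times at once -/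
lemma one_side {f : ℝ≥0 → ℝ} (hnd : NDG f) {v : ℝ} {u : ι → I}
    (hu : ∀ i, f (tm (u i)) = v) {r : ℝ} (hr : 0 < r) :
    (∀ i, ∃ t : ℝ≥0, t ≤ 1 ∧ |(t:ℝ) - u i| < r ∧ v < f t) ∨
    (∀ i, ∃ t : ℝ≥0, t ≤ 1 ∧ |(t:ℝ) - u i| < r ∧ f t < v) := by
  by_cases hA : ∀ i, ∃ t : ℝ≥0, t ≤ 1 ∧ |(t:ℝ) - u i| < r ∧ v < f t
  · exact Or.inl hA
  right
  push Not at hA
  obtain ⟨i0, h0⟩ := hA
  intro i
  rcases lt_trichotomy (tm (u i0)) (tm (u i)) with hlt | heq | hgt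
  · obtain ⟨-, s', t', hs1, ht1, hs, ht, hst⟩ := hnd _ _ hlt (tm_le _) ((hu i0).trans (hu i).symm) r hr
    exact ⟨t', ht1, ht, hst.trans_le (h0 s' hs1 hs)⟩
  · have hval : ((u i : I) : ℝ) = u i0 := by
      have := congrArg (fun x : ℝ≥0 => (x : ℝ)) heq
      simpa using this.symm
    by_contra hcon
    push Not at hcon
    rw [hval] at hcon
    have hconst : ∀ t : ℝ≥0, t ≤ 1 → |(t:ℝ) - u i0| < r → f t = v := fun t h1 h2 =>
      le_antisymm (h0 t h1 h2) (hcon t h1 h2)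
    set x : ℝ := (u i0 : ℝ) with hx
    have hx0 : 0 ≤ x := (u i0).2.1
    have hx1 : x ≤ 1 := (u i0).2.2
    set ρ : ℝ := min (r / 2) (1 / 2) with hρ
    have hρ0 : 0 < ρ := lt_min (by linarith) (by norm_num)
    have hρ1 : ρ ≤ r / 2 := min_le_left _ _
    have hρ2 : ρ ≤ 1 / 2 := min_le_right _ _
    have hpair : ∃ s t : ℝ≥0, s < t ∧ t ≤ 1 ∧ |(s:ℝ) - x| ≤ r / 2 ∧ |(t:ℝ) - x| ≤ r / 2 := by
      rcases le_total x (1 / 2) with h | h
      · refine ⟨⟨x, hx0⟩, ⟨x + ρ, by linarith⟩, ?_, ?_, ?_, ?_⟩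
        · rw [← NNReal.coe_lt_coe]
          show x < x + ρ
          linarith
        · rw [← NNReal.coe_le_coe]
          show x + ρ ≤ 1
          linarith
        · show |x - x| ≤ r / 2
          rw [sub_self, abs_zero]; linarith
        · show |x + ρ - x| ≤ r / 2
          rw [add_sub_cancel_left, abs_of_pos hρ0]; exact hρ1
      · refine ⟨⟨x - ρ, by linarith⟩, ⟨x, hx0⟩, ?_, ?_, ?_, ?_⟩
        · rw [← NNReal.coe_lt_coe]
          show x - ρ < x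
          linarith
        · rw [← NNReal.coe_le_coe]
          exact hx1
        · show |x - ρ - x| ≤ r / 2
          rw [sub_sub_cancel_left, abs_neg, abs_of_pos hρ0]; exact hρ1
        · show |x - x| ≤ r / 2
          rw [sub_self, abs_zero]; linarith
    obtain ⟨s, t, hst, ht1, hs, ht⟩ := hpair
    have hs1 : s ≤ 1 := hst.le.trans ht1
    have e1 := hconst s hs1 (by linarith)
    have e2 := hconst t ht1 (by linarith)
    obtain ⟨⟨s', t', hs1', ht1', hs', ht', hlt'⟩, -⟩ := hnd s t hst ht1 (e1.trans e2.symm)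
      (r / 2) (by linarith)
    have n1 : |(s':ℝ) - x| < r := by
      calc |(s':ℝ) - x| = |((s':ℝ) - s) + (s - x)| := by ring_nf
        _ ≤ |(s':ℝ) - s| + |(s:ℝ) - x| := abs_add_le _ _
        _ < r := by linarith
    have n2 : |(t':ℝ) - x| < r := by
      calc |(t':ℝ) - x| = |((t':ℝ) - t) + (t - x)| := by ring_nf
        _ ≤ |(t':ℝ) - t| + |(t:ℝ) - x| := abs_add_le _ _
        _ < r := by linarith
    rw [hconst s' hs1' n1, hconst t' ht1' n2] at hlt'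
    exact lt_irrefl _ hlt'
  · obtain ⟨⟨s', t', hs1, ht1, hs, ht, hst⟩, -⟩ := hnd _ _ hgt (tm_le _) ((hu i).trans (hu i0).symm) r hr
    exact ⟨s', hs1, hs, hst.trans_le (h0 t' ht1 ht)⟩

lemma lower_local' {f : ℝ≥0 → ℝ} (hf : Continuous f) (hnd : NDG f) {v : ℝ} {u : ι → I}
    (hu : ∀ i, f (tm (u i)) = v) {r : ℝ} (hr : 0 < r) :
    ∃ δ > 0, ∃ N0 : ℕ, ∀ N ≥ N0, 0 < N → ∀ a : ℝ, 0 < a → ∀ Z : ℕ → ℤ,
      (∀ k < N, |Z (k + 1) - Z k| ≤ 1) → (∀ k ≤ N, |a * Z k - f ((k : ℝ≥0) / N)| ≤ δ) →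
      ∃ k : ι → ℕ, (∀ i, k i ≤ N) ∧ (∀ i j, Z (k i) = Z (k j)) ∧
        ∀ i, |(k i : ℝ) / N - u i| ≤ 2 * r := by
  rcases one_side hnd hu hr with h | h
  · exact level_up hf hu hr h
  · obtain ⟨δ, hδ, N0, hN0⟩ := level_up (f := fun t => -f t) (v := -v) hf.neg
      (fun i => by rw [hu i]) hr (fun i => by
        obtain ⟨t, h1, h2, h3⟩ := h i
        exact ⟨t, h1, h2, neg_lt_neg h3⟩)
    refine ⟨δ, hδ, N0, fun N hN hNpos a ha Z hZ hclose => ?_⟩
    obtain ⟨k, hk1, hk2, hk3⟩ := hN0 N hN hNpos a ha (fun j => -Z j)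
      (fun j hj => by
        have := hZ j hj
        rw [abs_sub_comm]
        simpa [neg_add_eq_sub] using this)
      (fun j hj => by
        have := hclose j hj
        rw [abs_sub_comm] at this
        push_cast
        have e : a * (-(Z j : ℝ)) - -f ((j : ℝ≥0) / N) = f ((j : ℝ≥0) / N) - a * Z j := by ring
        rw [e]
        exact this)
    exact ⟨k, hk1, fun i j => neg_injective (hk2 i j), hk3⟩

lemma coin_nonempty (ι : Type) (f : ℝ≥0 → ℝ) : (coin ι f).Nonempty :=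
  ⟨fun _ => 0, fun _ _ => rfl⟩

lemma coinN_nonempty (ι : Type) (N : ℕ) (z : ℕ → ℤ) : (coinN ι N z).Nonempty :=
  ⟨fun _ => 0, fun _ => 0, fun _ => Nat.zero_le _, fun _ _ => rfl, fun _ => by simp⟩

omit [Finite ι] in
lemma isClosed_coin {f : ℝ≥0 → ℝ} (hf : Continuous f) : IsClosed (coin ι f) := by
  have h : coin ι f = ⋂ i, ⋂ j, {u : ι → I | f (tm (u i)) = f (tm (u j))} := by
    ext u; simp [coin]
  rw [h]
  exact isClosed_iInter fun i => isClosed_iInter fun j =>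
    isClosed_eq (hf.comp (continuous_tm.comp (continuous_apply i)))
      (hf.comp (continuous_tm.comp (continuous_apply j)))

omit [Finite ι] in
lemma isClosed_coinN (N : ℕ) (z : ℕ → ℤ) [Finite ι] : IsClosed (coinN ι N z) := by
  have h : coinN ι N z ⊆ Set.pi univ (fun _ : ι => {x : I | ∃ k : ℕ, k ≤ N ∧ (x : ℝ) = (k : ℝ) / N}) := by
    rintro u ⟨k, h1, -, h3⟩ i -
    exact ⟨k i, h1 i, h3 i⟩
  have hfin : {x : I | ∃ k : ℕ, k ≤ N ∧ (x : ℝ) = (k : ℝ) / N}.Finite := by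
    have : {x : I | ∃ k : ℕ, k ≤ N ∧ (x : ℝ) = (k : ℝ) / N} ⊆ Subtype.val ⁻¹'
        ((fun k : ℕ => (k : ℝ) / N) '' (Iic N)) := by
      rintro x ⟨k, hk, hx⟩
      exact ⟨k, hk, hx.symm⟩
    exact (((finite_Iic N).image _).preimage Subtype.val_injective.injOn).subset this
  exact ((Set.Finite.pi' (fun _ : ι => hfin)).subset (fun u hu i => h hu i (mem_univ i))).isClosed

lemma upper' [Fintype ι] {f : ℝ≥0 → ℝ} (hf : Continuous f) {ε : ℝ} (hε : 0 < ε) :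
    ∃ δ > 0, ∀ x : ι → I, (∀ i j, |f (tm (x i)) - f (tm (x j))| ≤ δ) →
      ∃ y ∈ coin ι f, dist x y ≤ ε := by
  by_contra hcon
  push Not at hcon
  have h1 : ∀ n : ℕ, ∃ x : ι → I, (∀ i j, |f (tm (x i)) - f (tm (x j))| ≤ 1 / ((n : ℝ) + 1)) ∧
      ∀ y ∈ coin ι f, ε < dist x y := fun n => hcon _ (by positivity)
  choose x hx1 hx2 using h1
  obtain ⟨y, -, φ, hφ, hy⟩ := isCompact_univ.tendsto_subseq (x := x) (fun n => mem_univ _)
  have hyc : y ∈ coin ι f := by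
    intro i j
    have hg : Continuous fun u : ι → I => |f (tm (u i)) - f (tm (u j))| :=
      ((hf.comp (continuous_tm.comp (continuous_apply i))).sub
        (hf.comp (continuous_tm.comp (continuous_apply j)))).abs
    have l1 := (hg.tendsto y).comp hy
    have l2 : Tendsto (fun n : ℕ => 1 / (((φ n : ℕ) : ℝ) + 1)) atTop (𝓝 0) :=
      tendsto_one_div_add_atTop_nhds_zero_nat.comp hφ.tendsto_atTop
    have l3 := le_of_tendsto_of_tendsto' l1 l2 (fun n => hx1 (φ n) i j)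
    have l4 := abs_nonneg (f (tm (y i)) - f (tm (y j)))
    exact sub_eq_zero.1 (abs_eq_zero.1 (le_antisymm l3 l4))
  have h2 := (tendsto_iff_dist_tendsto_zero.1 hy).eventually (gt_mem_nhds hε)
  obtain ⟨n, hn⟩ := h2.exists
  exact absurd (hx2 (φ n) y hyc) (not_lt.2 hn.le)

/-- **Stability of the coincidence sets.** -/
theorem stabC [Fintype ι] {f : ℝ≥0 → ℝ} (hf : Continuous f) (hnd : NDG f) {ε : ℝ} (hε : 0 < ε) :
    ∃ δ > 0, ∃ N0 : ℕ, ∀ N ≥ N0, 0 < N → ∀ a : ℝ, 0 < a → ∀ Z : ℕ → ℤ,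
      (∀ k < N, |Z (k + 1) - Z k| ≤ 1) → (∀ k ≤ N, |a * Z k - f ((k : ℝ≥0) / N)| ≤ δ) →
      Metric.hausdorffDist (coinN ι N Z) (coin ι f) ≤ ε := by
  obtain ⟨δ1, hδ1, hup⟩ := upper' (ι := ι) hf hε
  have hlow : ∃ δ > 0, ∃ N0 : ℕ, ∀ N ≥ N0, 0 < N → ∀ a : ℝ, 0 < a → ∀ Z : ℕ → ℤ,
      (∀ k < N, |Z (k + 1) - Z k| ≤ 1) → (∀ k ≤ N, |a * Z k - f ((k : ℝ≥0) / N)| ≤ δ) →
      ∀ u ∈ coin ι f, ∃ x ∈ coinN ι N Z, dist u x ≤ ε := by
    refine (isClosed_coin (ι := ι) hf).isCompact.induction_on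
      (p := fun A => ∃ δ > 0, ∃ N0 : ℕ, ∀ N ≥ N0, 0 < N →
      ∀ a : ℝ, 0 < a → ∀ Z : ℕ → ℤ, (∀ k < N, |Z (k + 1) - Z k| ≤ 1) →
      (∀ k ≤ N, |a * Z k - f ((k : ℝ≥0) / N)| ≤ δ) →
      ∀ u ∈ A, ∃ x ∈ coinN ι N Z, dist u x ≤ ε) ?_ ?_ ?_ ?_
    · exact ⟨1, one_pos, 0, fun N _ _ a _ Z _ _ u hu => absurd hu (notMem_empty _)⟩
    · rintro A B hAB ⟨δ, hδ, N0, h⟩
      exact ⟨δ, hδ, N0, fun N hN hN0 a ha Z hZ hc u hu => h N hN hN0 a ha Z hZ hc u (hAB hu)⟩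
    · rintro A B ⟨δ, hδ, N0, h⟩ ⟨δ', hδ', N0', h'⟩
      refine ⟨min δ δ', lt_min hδ hδ', max N0 N0', fun N hN hN0 a ha Z hZ hc u hu => ?_⟩
      rcases hu with hu | hu
      · exact h N ((le_max_left _ _).trans hN) hN0 a ha Z hZ
          (fun k hk => (hc k hk).trans (min_le_left _ _)) u hu
      · exact h' N ((le_max_right _ _).trans hN) hN0 a ha Z hZ
          (fun k hk => (hc k hk).trans (min_le_right _ _)) u hu
    · intro u hu
      rcases isEmpty_or_nonempty ι with hE | hE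
      · refine ⟨univ, univ_mem, 1, one_pos, 0, fun N _ _ a _ Z _ _ w _ => ?_⟩
        obtain ⟨x, hx⟩ := coinN_nonempty ι N Z
        refine ⟨x, hx, ?_⟩
        rw [Subsingleton.elim w x, dist_self]
        exact hε.le
      obtain ⟨i0⟩ := hE
      obtain ⟨δ, hδ, N0, h⟩ := lower_local' (u := u) hf hnd (v := f (tm (u i0)))
        (fun i => hu i i0) (r := ε / 4) (by linarith)
      refine ⟨Metric.ball u (ε / 2), mem_nhdsWithin_of_mem_nhds (Metric.ball_mem_nhds _ (by linarith)),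
        δ, hδ, N0, fun N hN hNpos a ha Z hZ hc w hw => ?_⟩
      obtain ⟨k, hk1, hk2, hk3⟩ := h N hN hNpos a ha Z hZ hc
      have hNR : (0:ℝ) < N := by exact_mod_cast hNpos
      have hmem : ∀ i, ((k i : ℝ) / N) ∈ Icc (0:ℝ) 1 := fun i =>
        ⟨by positivity, by rw [div_le_one hNR]; exact_mod_cast hk1 i⟩
      refine ⟨fun i => ⟨(k i : ℝ) / N, hmem i⟩, ⟨k, hk1, hk2, fun i => rfl⟩, ?_⟩
      have h5 : dist u (fun i => (⟨(k i : ℝ) / N, hmem i⟩ : I)) ≤ ε / 2 := by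
        rw [dist_pi_le_iff (by linarith)]
        intro i
        rw [Subtype.dist_eq, Real.dist_eq, abs_sub_comm]
        have := hk3 i
        show |(k i : ℝ) / N - u i| ≤ ε / 2
        linarith
      rw [Metric.mem_ball] at hw
      calc dist w _ ≤ dist w u + dist u _ := dist_triangle _ _ _
        _ ≤ ε := by linarith
  obtain ⟨δ2, hδ2, N0, hlow⟩ := hlow
  refine ⟨min (δ1 / 2) δ2, lt_min (by linarith) hδ2, N0, fun N hN hNpos a ha Z hZ hc => ?_⟩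
  have hNR : (0:ℝ) < N := by exact_mod_cast hNpos
  apply Metric.hausdorffDist_le_of_mem_dist hε.le
  · rintro x ⟨k, hkN, hkk, hx⟩
    have htm : ∀ i, tm (x i) = (k i : ℝ≥0) / N := by
      intro i
      rw [← NNReal.coe_inj]
      push_cast
      rw [coe_tm, hx i]
    obtain ⟨y, hy, hxy⟩ := hup x (fun i j => by
      rw [htm i, htm j]
      have hi := (hc (k i) (hkN i)).trans (min_le_left _ _)
      have hj := (hc (k j) (hkN j)).trans (min_le_left _ _)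
      rw [hkk i j] at hi
      rw [abs_le] at hi hj ⊢
      constructor <;> linarith [hi.1, hi.2, hj.1, hj.2])
    exact ⟨y, hy, hxy⟩
  · intro u hu
    exact hlow N hN hNpos a ha Z hZ (fun k hk => (hc k hk).trans (min_le_right _ _)) u hu

end Pool.Agent.H99.CS
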