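import Pool.Agent.H99.CS.Det

open MeasureTheory ProbabilityTheory Filter Topology Set TopologicalSpace
open scoped ENNReal NNReal unitInterval

namespace Pool.Agent.H99.CS

open Pool.Agent.R974.Span

/-- The point `k / N` of `[0, 1]`. -/
noncomputable def gp (N k : ℕ) : I := projIcc 0 1 zero_le_one ((k : ℝ) / N)

/-- The extension of a path on `[0, 1]`. -/
noncomputable def ext (x : C(I, ℝ)) (t : ℝ≥0) : ℝ := x (projIcc 0 1 zero_le_one (t : ℝ))

lemma continuous_ext (x : C(I, ℝ)) : Continuous (ext x) :=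
  x.continuous.comp (continuous_projIcc.comp NNReal.continuous_coe)

lemma ext_grid (x : C(I, ℝ)) (N k : ℕ) : ext x ((k : ℝ≥0) / N) = x (gp N k) := by
  simp [ext, gp]

lemma ext_tm (x : C(I, ℝ)) (y : I) : ext x (tm y) = x y := by
  unfold ext
  rw [coe_tm, projIcc_of_mem zero_le_one y.2]

lemma ext_of_le (x : C(I, ℝ)) {t : ℝ≥0} (ht : t ≤ 1) : ext x t = x ⟨t, t.2, ht⟩ := by
  unfold ext
  rw [projIcc_of_mem zero_le_one (⟨t.2, ht⟩ : (t : ℝ) ∈ Icc (0:ℝ) 1)]

/-- A path is nondegenerate if every coincidence `x s = x t`, `s < t`, is a change of sign of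
`x t - x s` near `(s, t)`; that is, it is not the case that one of `s`, `t` is a local minimum and
the other one a local maximum. -/
def Nondeg (x : C(I, ℝ)) : Prop :=
  ∀ s t : I, s < t → x s = x t → ∀ ε : ℝ, 0 < ε →
    (∃ s' t' : I, dist s' s < ε ∧ dist t' t < ε ∧ x s' < x t') ∧
    (∃ s' t' : I, dist s' s < ε ∧ dist t' t < ε ∧ x t' < x s')

lemma ndg_ext {x : C(I, ℝ)} (h : Nondeg x) : NDG (ext x) := by
  intro s t hst ht heq ε hε
  have hs1 : s ≤ 1 := hst.le.trans ht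
  have hst' : (⟨s, s.2, hs1⟩ : I) < ⟨t, t.2, ht⟩ := by
    rw [← Subtype.coe_lt_coe]; exact hst
  rw [ext_of_le x hs1, ext_of_le x ht] at heq
  obtain ⟨⟨s1, t1, h1, h2, h3⟩, ⟨s2, t2, h4, h5, h6⟩⟩ := h _ _ hst' heq ε hε
  rw [Subtype.dist_eq, Real.dist_eq] at h1 h2 h4 h5
  exact ⟨⟨tm s1, tm t1, tm_le _, tm_le _, h1, h2, by rw [ext_tm, ext_tm]; exact h3⟩,
    ⟨tm s2, tm t2, tm_le _, tm_le _, h4, h5, by rw [ext_tm, ext_tm]; exact h6⟩⟩

lemma nondeg_of_ndg {f : ℝ≥0 → ℝ} (h : NDG f) {x : C(I, ℝ)} (hx : ∀ y, x y = f (tm y)) :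
    Nondeg x := by
  intro s t hst heq ε hε
  have hst' : tm s < tm t := by
    rw [← NNReal.coe_lt_coe]; exact hst
  rw [hx, hx] at heq
  obtain ⟨⟨s1, t1, a1, a2, h1, h2, h3⟩, ⟨s2, t2, b1, b2, h4, h5, h6⟩⟩ := h _ _ hst' (tm_le _) heq ε hε
  refine ⟨⟨⟨s1, s1.2, a1⟩, ⟨t1, t1.2, a2⟩, ?_, ?_, ?_⟩, ⟨⟨s2, s2.2, b1⟩, ⟨t2, t2.2, b2⟩, ?_, ?_, ?_⟩⟩
  · rw [Subtype.dist_eq, Real.dist_eq]; exact h1
  · rw [Subtype.dist_eq, Real.dist_eq]; exact h2
  · rw [hx, hx]; exact h3
  · rw [Subtype.dist_eq, Real.dist_eq]; exact h4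
  · rw [Subtype.dist_eq, Real.dist_eq]; exact h5
  · rw [hx, hx]; exact h6

variable {Ω' : Type*} [MeasurableSpace Ω'] {P' : Measure Ω'}
variable {E : Type*} [MetricSpace E] [MeasurableSpace E] [BorelSpace E]

theorem aemeas_lim {X : Ω' → C(I, ℝ)} (hX : ∀ y, Measurable fun ω => X ω y)
    {T : ℕ → (ℕ → ℤ) → E}
    (hloc : ∀ N z z', (∀ k ≤ N, z k = z' k) → T N z = T N z') {Y : Ω' → E}
    (hst : ∀ᵐ ω ∂P', Stable T (ext (X ω)) (Y ω)) : AEMeasurable Y P' := by
  classical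
  set z : ℕ → ℕ → ℕ → Ω' → ℤ := fun j N k ω => ⌊((j : ℝ) + 1) * ext (X ω) ((k : ℝ≥0) / N)⌋ with hz
  have hzm : ∀ j N k, Measurable (z j N k) := fun j N k =>
    Int.measurable_floor.comp ((hX _).const_mul _)
  have hex : ∀ j ω, ∃ N : ℕ, j + 1 ≤ N ∧ ∀ k < N, |z j N (k + 1) ω - z j N k ω| ≤ 1 :=
    fun j ω => exists_good_N (continuous_ext (X ω)) j
  set A : ℕ → Ω' → E := fun j ω => T (Nat.find (hex j ω)) (fun k => z j (Nat.find (hex j ω)) k ω)
    with hA
  have hAm : ∀ j, Measurable (A j) := by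
    intro j
    refine Measurable.find (f := fun N ω => T N (fun k => z j N k ω)) (fun N => ?_) (fun N => ?_)
      (hex j)
    · exact meas_local' (hzm j N) (hloc N)
    · have : {ω | j + 1 ≤ N ∧ ∀ k < N, |z j N (k + 1) ω - z j N k ω| ≤ 1} =
          {_ω | j + 1 ≤ N} ∩ ⋂ k, ⋂ _ : k < N, {ω | |z j N (k + 1) ω - z j N k ω| ≤ 1} := by
        ext ω; simp
      rw [this]
      refine (MeasurableSet.const _).inter (MeasurableSet.iInter fun k =>
        MeasurableSet.iInter fun _ => ?_)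
      have hm : Measurable (fun ω => |z j N (k + 1) ω - z j N k ω|) :=
        (Measurable.of_discrete (f := fun p : ℤ × ℤ => |p.1 - p.2|)).comp
          ((hzm j N (k + 1)).prodMk (hzm j N k))
      exact hm (MeasurableSet.of_discrete (s := {m : ℤ | m ≤ 1}))
  refine aemeasurable_of_tendsto_metrizable_ae' (fun j => (hAm j).aemeasurable) ?_
  filter_upwards [hst] with ω hω
  rw [Metric.tendsto_atTop]
  intro ε hε
  obtain ⟨δ, hδ, N0, hN0⟩ := hω (ε / 2) (by positivity)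
  obtain ⟨n1, hn1⟩ := exists_nat_gt (1 / δ)
  refine ⟨max N0 n1, fun j hj => ?_⟩
  obtain ⟨h1, h2⟩ := Nat.find_spec (hex j ω)
  have hjN0 : N0 ≤ j := (le_max_left _ _).trans hj
  have hjn1 : n1 ≤ j := (le_max_right _ _).trans hj
  have hj' : (n1 : ℝ) ≤ j := by exact_mod_cast hjn1
  have hδj : 1 / ((j : ℝ) + 1) ≤ δ := by
    rw [div_le_comm₀ (by positivity) hδ]
    linarith
  refine (hN0 _ (by omega) (by omega) (1 / ((j : ℝ) + 1)) (by positivity)
    (fun k => z j (Nat.find (hex j ω)) k ω) h2 fun k _ => ?_).trans_lt (by linarith)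
  refine le_trans ?_ hδj
  set x := ext (X ω) ((k : ℝ≥0) / (Nat.find (hex j ω) : ℕ))
  have e1 := Int.floor_le (((j : ℝ) + 1) * x)
  have e2 := Int.lt_floor_add_one (((j : ℝ) + 1) * x)
  have hjpos : (0:ℝ) < (j : ℝ) + 1 := by positivity
  change |1 / ((j : ℝ) + 1) * (⌊((j : ℝ) + 1) * x⌋ : ℤ) - x| ≤ 1 / ((j : ℝ) + 1)
  have e3 : 1 / ((j : ℝ) + 1) * (((j : ℝ) + 1) * x) = x := by field_simp
  have hpos : 0 ≤ 1 / ((j : ℝ) + 1) := by positivity
  have e4 := mul_le_mul_of_nonneg_left e1 hpos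
  have e5 := mul_le_mul_of_nonneg_left e2.le hpos
  rw [mul_add, mul_one] at e5
  rw [abs_le]
  constructor <;> linarith

variable {Ω : ℕ → Type*} [∀ n, MeasurableSpace (Ω n)] {P : ∀ n, Measure (Ω n)}

/-- **Invariance principle for arrays.** A functional which is almost surely stable at the limit
path converges along every array of nearest neighbour processes whose rescaled paths converge in
distribution to the limit path. -/
theorem invariance [∀ n, IsProbabilityMeasure (P n)] [IsProbabilityMeasure P']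
    [MeasurableSpace C(I, ℝ)] [BorelSpace C(I, ℝ)]
    {N : ℕ → ℕ} (hN : Tendsto N atTop atTop) {a : ℕ → ℝ} (ha : ∀ n, 0 < a n)
    {Z : ∀ n, ℕ → Ω n → ℤ} (hZm : ∀ n k, Measurable (Z n k))
    (hZ : ∀ n, ∀ᵐ ω ∂P n, ∀ k < N n, |Z n (k + 1) ω - Z n k ω| ≤ 1)
    {W : ∀ n, Ω n → C(I, ℝ)} {X : Ω' → C(I, ℝ)} (hW : TendstoInDistribution W atTop X P P')
    (hWZ : ∀ ε : ℝ, 0 < ε → Tendsto (fun n =>
      P n {ω | ∃ k ≤ N n, ε < |a n * Z n k ω - W n ω (gp (N n) k)|}) atTop (𝓝 0))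
    {T : ℕ → (ℕ → ℤ) → E}
    (hloc : ∀ N z z', (∀ k ≤ N, z k = z' k) → T N z = T N z') {Y : Ω' → E}
    (hst : ∀ᵐ ω ∂P', Stable T (ext (X ω)) (Y ω)) :
    TendstoInDistribution (fun n ω => T (N n) (fun k => Z n k ω)) atTop Y P P' := by
  have hTm : ∀ n, Measurable fun ω => T (N n) (fun k => Z n k ω) := fun n =>
    meas_local' (hZm n) (hloc (N n))
  have hYm : AEMeasurable Y P' := by
    have h1 := hW.aemeasurable_limit
    refine aemeas_lim (X := h1.mk X) (fun y => ?_) hloc ?_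
    · exact (continuous_eval_const (F := C(I, ℝ)) y).measurable.comp h1.measurable_mk
    · filter_upwards [hst, h1.ae_eq_mk] with ω h2 h3
      rw [← h3]; exact h2
  refine ⟨fun n => (hTm n).aemeasurable, hYm, ?_⟩
  refine tendsto_of_forall_isClosed_limsup_le' fun F hF => ?_
  let A : ℕ → Set C(I, ℝ) := fun m => {x | ∃ n ≥ m, ∃ z : ℕ → ℤ,
    (∀ k < N n, |z (k + 1) - z k| ≤ 1) ∧
    (∀ k ≤ N n, |a n * z k - x (gp (N n) k)| ≤ 1 / ((m : ℝ) + 1)) ∧ T (N n) z ∈ F}
  let K : ℕ → Set C(I, ℝ) := fun m => closure (A m)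
  have hKc : ∀ m, IsClosed (K m) := fun m => isClosed_closure
  have hKanti : Antitone K := by
    intro m m' hmm
    refine closure_mono ?_
    rintro x ⟨n, hn, z, h1, h2, h3⟩
    refine ⟨n, hmm.trans hn, z, h1, fun k hk => (h2 k hk).trans ?_, h3⟩
    have : (m : ℝ) ≤ m' := by exact_mod_cast hmm
    gcongr
  -- the limit bound for each `m`
  have step : ∀ m, limsup (fun n => (P n) {ω | T (N n) (fun k => Z n k ω) ∈ F}) atTop ≤
      P' (X ⁻¹' K m) := by
    intro m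
    have h1 : ∀ᶠ n in atTop, (P n) {ω | T (N n) (fun k => Z n k ω) ∈ F} ≤
        (P n) (W n ⁻¹' K m) +
          (P n) {ω | ∃ k ≤ N n, 1 / ((m : ℝ) + 1) < |a n * Z n k ω - W n ω (gp (N n) k)|} := by
      filter_upwards [eventually_ge_atTop m] with n hn
      refine le_trans (measure_mono_ae ?_) (measure_union_le _ _)
      filter_upwards [hZ n] with ω hω hmem
      by_cases hb : ∃ k ≤ N n, 1 / ((m : ℝ) + 1) < |a n * Z n k ω - W n ω (gp (N n) k)|
      · exact Or.inr hb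
      · push Not at hb
        exact Or.inl (subset_closure ⟨n, hn, fun k => Z n k ω, hω, hb, hmem⟩)
    have h2 := (ProbabilityMeasure.limsup_measure_closed_le_of_tendsto hW.tendsto (hKc m))
    simp only [ProbabilityMeasure.coe_mk] at h2
    have h3 : ∀ n, ((P n).map (W n)) (K m) = (P n) (W n ⁻¹' K m) := fun n =>
      Measure.map_apply_of_aemeasurable (hW.forall_aemeasurable n) (hKc m).measurableSet
    simp_rw [h3] at h2
    rw [Measure.map_apply_of_aemeasurable hW.aemeasurable_limit (hKc m).measurableSet] at h2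
    have h4 := hWZ (1 / ((m : ℝ) + 1)) (by positivity)
    refine ENNReal.le_of_forall_pos_le_add fun ε hε hfin => ?_
    have hε2 : (0 : ℝ≥0∞) < (ε : ℝ≥0∞) / 2 := ENNReal.half_pos (by exact_mod_cast hε.ne')
    have h5 : limsup (fun n => (P n) (W n ⁻¹' K m)) atTop < P' (X ⁻¹' K m) + (ε : ℝ≥0∞) / 2 :=
      h2.trans_lt (ENNReal.lt_add_right hfin.ne hε2.ne')
    refine limsup_le_of_le (by isBoundedDefault) ?_
    filter_upwards [h1, eventually_lt_of_limsup_lt h5 (by isBoundedDefault),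
      h4.eventually (gt_mem_nhds hε2)] with n h6 h7 h8
    refine h6.trans ((add_le_add h7.le h8.le).trans ?_)
    rw [add_assoc, ENNReal.add_halves]
  have hinter : limsup (fun n => (P n) {ω | T (N n) (fun k => Z n k ω) ∈ F}) atTop ≤
      P' (⋂ m, X ⁻¹' K m) := by
    have ht : Tendsto (fun m => P' (X ⁻¹' K m)) atTop (𝓝 (P' (⋂ m, X ⁻¹' K m))) := by
      refine tendsto_measure_iInter_atTop (fun m => ?_) (fun m m' hmm => preimage_mono (hKanti hmm))
        ⟨0, measure_ne_top _ _⟩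
      exact hW.aemeasurable_limit.nullMeasurable (hKc m).measurableSet
    exact ge_of_tendsto' ht step
  have hsub : P' (⋂ m, X ⁻¹' K m) ≤ P' (Y ⁻¹' F) := by
    refine measure_mono_ae ?_
    filter_upwards [hst] with ω hω hmem
    have hmem' : ∀ m, X ω ∈ K m := fun m => mem_iInter.1 hmem m
    show Y ω ∈ F
    rw [← hF.closure_eq, Metric.mem_closure_iff]
    intro ε hε
    obtain ⟨δ, hδ, N0, hN0⟩ := hω (ε / 2) (by positivity)
    obtain ⟨m0, hm0⟩ := eventually_atTop.1 (hN.eventually_ge_atTop (max N0 1))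
    obtain ⟨m1, hm1⟩ := exists_nat_gt (2 / δ)
    set m := max m0 m1 with hm
    have hmδ : 1 / ((m : ℝ) + 1) ≤ δ / 2 := by
      have h1 : (m1 : ℝ) ≤ m := by exact_mod_cast le_max_right m0 m1
      rw [div_le_div_iff₀ (by positivity) (by norm_num)]
      rw [div_lt_iff₀ hδ] at hm1
      nlinarith
    obtain ⟨x, ⟨n, hn, z, h1, h2, h3⟩, h4⟩ := Metric.mem_closure_iff.1 (hmem' m) (δ / 2) (by linarith)
    have hNn : max N0 1 ≤ N n := hm0 n ((le_max_left m0 m1).trans hn)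
    refine ⟨T (N n) z, h3, ?_⟩
    rw [dist_comm]
    refine (hN0 (N n) ((le_max_left _ _).trans hNn) ((le_max_right N0 1).trans hNn) (a n) (ha n) z h1
      fun k hk => ?_).trans_lt (by linarith)
    rw [ext_grid]
    have h5 : |x (gp (N n) k) - X ω (gp (N n) k)| < δ / 2 := by
      have := ContinuousMap.dist_apply_le_dist (f := X ω) (g := x) (gp (N n) k)
      rw [Real.dist_eq, abs_sub_comm] at this
      linarith
    calc |a n * (z k : ℝ) - X ω (gp (N n) k)|
        = |(a n * (z k : ℝ) - x (gp (N n) k)) + (x (gp (N n) k) - X ω (gp (N n) k))| := by ring_nf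
      _ ≤ |a n * (z k : ℝ) - x (gp (N n) k)| + |x (gp (N n) k) - X ω (gp (N n) k)| := abs_add_le _ _
      _ ≤ δ := by linarith [h2 k hk]
  have e1 : ∀ n, ((P n).map (fun ω => T (N n) (fun k => Z n k ω))) F =
      (P n) {ω | T (N n) (fun k => Z n k ω) ∈ F} := fun n =>
    Measure.map_apply (hTm n) hF.measurableSet
  simp only [ProbabilityMeasure.coe_mk]
  simp_rw [e1]
  rw [Measure.map_apply_of_aemeasurable hYm hF.measurableSet]
  exact hinter.trans hsub

end Pool.Agent.H99.CS
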