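import Pool.Agent.H99.CS.Inv

open Filter Topology Set TopologicalSpace
open scoped NNReal unitInterval

namespace Pool.Agent.H99.CS

open Pool.Agent.R974.Span

lemma gp_of_eq {N k : ℕ} {y : I} (h : (y : ℝ) = (k : ℝ) / N) : gp N k = y := by
  unfold gp
  rw [← h, projIcc_of_mem zero_le_one y.2]

/-- a cut-off function which vanishes near `s` and is one near `t` -/
noncomputable def cut (s t : ℝ) (y : ℝ) : ℝ := max 0 (min 1 (3 * (y - s) / (t - s) - 1))

lemma continuous_cut (s t : ℝ) : Continuous (cut s t) := by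
  unfold cut
  fun_prop

lemma cut_left {s t y : ℝ} (hst : s < t) (h : |y - s| < (t - s) / 3) : cut s t y = 0 := by
  unfold cut
  rw [abs_lt] at h
  have h0 : 0 < t - s := by linarith
  have h1 : 3 * (y - s) / (t - s) - 1 ≤ 0 := by
    rw [sub_nonpos, div_le_one h0]
    linarith [h.2]
  exact max_eq_left ((min_le_right _ _).trans h1)

lemma cut_right {s t y : ℝ} (hst : s < t) (h : |y - t| < (t - s) / 3) : cut s t y = 1 := by
  unfold cut
  rw [abs_lt] at h
  have h0 : 0 < t - s := by linarith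
  have h1 : 1 ≤ 3 * (y - s) / (t - s) - 1 := by
    rw [le_sub_iff_add_le, le_div_iff₀ h0]
    linarith [h.1]
  rw [min_eq_left h1, max_eq_right zero_le_one]

lemma cut_abs (s t y : ℝ) : |cut s t y| ≤ 1 := by
  unfold cut
  rw [abs_of_nonneg (le_max_left _ _)]
  exact max_le zero_le_one (min_le_left _ _)

/-- the perturbed path -/
noncomputable def pert (x : C(I, ℝ)) (s t c : ℝ) : C(I, ℝ) :=
  ⟨fun y => x y + c * cut s t y,
    x.continuous.add (continuous_const.mul ((continuous_cut s t).comp continuous_subtype_val))⟩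

/-- At a degenerate path the coincidence sets of order two are not stable: there are nearest
neighbour paths which approximate the path and have no coincidence near one of the
coincidences of the path. -/
theorem unstable {x : C(I, ℝ)} (h : ¬ Nondeg x) :
    ∃ (s t : I) (ε : ℝ) (N : ℕ → ℕ) (z : ℕ → ℕ → ℤ), x s = x t ∧ 0 < ε ∧ (∀ j, j + 1 ≤ N j) ∧
      (∀ j, ∀ k < N j, |z j (k + 1) - z j k| ≤ 1) ∧
      (∀ j : ℕ, ∀ k : ℕ, |1 / ((j : ℝ) + 1) * z j k - x (gp (N j) k)| ≤ 3 / ((j : ℝ) + 1)) ∧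
      ∀ j, ∀ s' t' : I, dist s' s < ε → dist t' t < ε →
        ∀ k l : ℕ, (s' : ℝ) = (k : ℝ) / N j → (t' : ℝ) = (l : ℝ) / N j → z j k ≠ z j l := by
  unfold Nondeg at h
  push Not at h
  obtain ⟨s, t, hst, heq, ε, hε, hAB⟩ := h
  -- the sign
  obtain ⟨sg, hsg, hsign⟩ : ∃ sg : ℝ, |sg| = 1 ∧ ∀ s' t' : I, dist s' s < ε → dist t' t < ε →
      0 ≤ sg * (x t' - x s') := by
    by_cases hA : ∃ s' t' : I, dist s' s < ε ∧ dist t' t < ε ∧ x s' < x t'
    · refine ⟨1, by simp, fun s' t' h1 h2 => ?_⟩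
      have := hAB hA s' t' h1 h2
      linarith
    · push Not at hA
      refine ⟨-1, by simp, fun s' t' h1 h2 => ?_⟩
      have := hA s' t' h1 h2
      linarith
  have hst' : (s : ℝ) < t := hst
  let f : ℕ → C(I, ℝ) := fun j => pert x s t (sg * (2 / ((j : ℝ) + 1)))
  have hN := fun j => exists_good_N (continuous_ext (f j)) j
  choose N hN1 hN2 using hN
  refine ⟨s, t, min ε (((t : ℝ) - s) / 3), N, fun j k => ⌊((j : ℝ) + 1) * f j (gp (N j) k)⌋,
    heq, lt_min hε (by linarith), hN1, fun j k hk => ?_, fun j k => ?_, ?_⟩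
  · have := hN2 j k hk
    rw [ext_grid, ext_grid] at this
    exact this
  · have hj : (0:ℝ) < (j : ℝ) + 1 := by positivity
    set w := f j (gp (N j) k) with hw
    have e1 := Int.floor_le (((j : ℝ) + 1) * w)
    have e2 := Int.lt_floor_add_one (((j : ℝ) + 1) * w)
    have hpos : 0 ≤ 1 / ((j : ℝ) + 1) := by positivity
    have e3 : 1 / ((j : ℝ) + 1) * (((j : ℝ) + 1) * w) = w := by field_simp
    have e4 := mul_le_mul_of_nonneg_left e1 hpos
    have e5 := mul_le_mul_of_nonneg_left e2.le hpos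
    rw [mul_add, mul_one] at e5
    have e6 : |w - x (gp (N j) k)| ≤ 2 / ((j : ℝ) + 1) := by
      have : w - x (gp (N j) k) = sg * (2 / ((j : ℝ) + 1)) * cut s t (gp (N j) k) := by
        simp only [hw, f, pert, ContinuousMap.coe_mk]
        ring
      rw [this, abs_mul, abs_mul, hsg, one_mul, abs_of_pos (by positivity : (0:ℝ) < 2 / ((j : ℝ) + 1))]
      exact mul_le_of_le_one_right (by positivity) (cut_abs _ _ _)
    have e7 : (3 : ℝ) / ((j : ℝ) + 1) = 1 / ((j : ℝ) + 1) + 2 / ((j : ℝ) + 1) := by ring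
    rw [abs_le] at e6
    rw [e7, abs_le]
    constructor
    · linarith [e6.1]
    · linarith [e6.2]
  · intro j s' t' hs' ht' k l hk hl hkl
    simp only at hkl
    rw [gp_of_eq hk, gp_of_eq hl] at hkl
    have h1 := Int.abs_sub_lt_one_of_floor_eq_floor hkl
    have hj : (0:ℝ) < (j : ℝ) + 1 := by positivity
    have hs1 := hs'.trans_le (min_le_left _ _)
    have hs2 := hs'.trans_le (min_le_right _ _)
    have ht1 := ht'.trans_le (min_le_left _ _)
    have ht2 := ht'.trans_le (min_le_right _ _)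
    rw [Subtype.dist_eq, Real.dist_eq] at hs2 ht2
    have c1 := cut_left hst' hs2
    have c2 := cut_right hst' ht2
    have e1 : f j s' = x s' := by
      simp only [f, pert, ContinuousMap.coe_mk, c1, mul_zero, add_zero]
    have e2 : f j t' = x t' + sg * (2 / ((j : ℝ) + 1)) := by
      simp only [f, pert, ContinuousMap.coe_mk, c2, mul_one]
    rw [e1, e2, abs_sub_comm, ← mul_sub, abs_mul, abs_of_pos hj] at h1
    have h2 := hsign s' t' hs1 ht1
    have hsg2 : sg * sg = 1 := by
      rw [← abs_mul_abs_self, hsg, one_mul]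
    have h3 : 2 / ((j : ℝ) + 1) ≤ |x t' + sg * (2 / ((j : ℝ) + 1)) - x s'| := by
      calc 2 / ((j : ℝ) + 1) ≤ sg * (x t' - x s') + 2 / ((j : ℝ) + 1) := by linarith
        _ = sg * (x t' + sg * (2 / ((j : ℝ) + 1)) - x s') := by linear_combination (-(2 / ((j : ℝ) + 1))) * hsg2
        _ ≤ |sg * (x t' + sg * (2 / ((j : ℝ) + 1)) - x s')| := le_abs_self _
        _ = |x t' + sg * (2 / ((j : ℝ) + 1)) - x s'| := by rw [abs_mul, hsg, one_mul]
    have h4 := mul_le_mul_of_nonneg_left h3 hj.le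
    rw [mul_div_cancel₀ _ hj.ne'] at h4
    linarith

end Pool.Agent.H99.CS
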